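import Pool.Agent.W712.WR.Stm

set_option autoImplicit false

namespace Pool.Agent.W605.WR

open Finset W712.WR

/-- extension by zero -/
noncomputable def ext {n : ℕ} (u : Fin n → ℝ) : ℕ → ℝ := fun i => if h : i < n then u ⟨i, h⟩ else 0

theorem ext_fin {n : ℕ} (u : Fin n → ℝ) (i : Fin n) : ext u i = u i := by
  unfold ext
  rw [dif_pos i.2]

theorem ext_lt {n : ℕ} (u : Fin n → ℝ) {i : ℕ} (h : i < n) : ext u i = u ⟨i, h⟩ := by
  unfold ext
  rw [dif_pos h]

theorem ext_supp {n : ℕ} (u : Fin n → ℝ) : Supp n (ext u) := by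
  intro i hi
  unfold ext
  rw [dif_neg (not_lt.mpr hi)]

theorem pr_ext {n : ℕ} (w : ℕ → ℝ) (u : Fin n → ℝ) : pr n w (ext u) = ∑ i : Fin n, w i * u i := by
  unfold pr
  rw [Finset.sum_range]
  exact Finset.sum_congr rfl fun i _ => by rw [ext_fin]

theorem sum_log {n : ℕ} (u x : Fin n → ℝ) :
    ∑ i ∈ range n, ext u i * Real.log (ext x i) = ∑ i : Fin n, u i * Real.log (x i) := by
  rw [Finset.sum_range]
  exact Finset.sum_congr rfl fun i _ => by rw [ext_fin, ext_fin]

theorem sum_perm {n : ℕ} (w x : Fin n → ℝ) (π : Equiv.Perm (Fin n)) :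
    ∑ j, w (π j) * x j = ∑ i, w i * x (π.symm i) := by
  rw [← Equiv.sum_comp π (fun i => w i * x (π.symm i))]
  simp

theorem anti_ext {n : ℕ} {x : Fin n → ℝ} (hx : Antitone x) :
    ∀ i j, i ≤ j → j < n → ext x j ≤ ext x i := by
  intro i j hij hj
  rw [ext_lt x hj, ext_lt x (hij.trans_lt hj)]
  exact hx hij

theorem exists_sort {n : ℕ} (y : Fin n → ℝ) : ∃ κ : Equiv.Perm (Fin n), Antitone (y ∘ κ) := by
  refine ⟨Tuple.sort (-y), ?_⟩
  have h := Tuple.monotone_sort (-y)
  intro i j hij
  have := h hij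
  simp only [Function.comp_apply, Pi.neg_apply] at this ⊢
  linarith

theorem comp_eq {n : ℕ} {w : Fin n → ℝ} {κ : Equiv.Perm (Fin n)} (h1 : Antitone w)
    (h2 : Antitone (w ∘ κ)) : w ∘ κ = w := by
  have a1 : Monotone ((-w) ∘ (1 : Equiv.Perm (Fin n))) := fun i j hij => by
    have := h1 hij
    simp only [Function.comp_apply, Pi.neg_apply, Equiv.Perm.coe_one, id_eq]
    linarith
  have a2 : Monotone ((-w) ∘ κ) := fun i j hij => by
    have := h2 hij
    simp only [Function.comp_apply, Pi.neg_apply] at this ⊢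
    linarith
  have h3 := Tuple.unique_monotone a2 a1
  funext i
  have := congrFun h3 i
  simpa using this

theorem main_of_root : RootStm → MainStm := by
  classical
  intro hroot n U
  rcases Nat.eq_zero_or_pos n with rfl | hn
  · refine ⟨∅, fun _ => 1, fun _ => 1, continuous_const, continuous_const, fun _ => one_pos,
      by simp, by simp, ⟨0, fun R _ x _ j => j.elim0⟩, fun δ => ⟨0, by simp⟩⟩
  · set U' : Finset (ℕ → ℝ) := (U ×ˢ (univ : Finset (Equiv.Perm (Fin n)))).image
      (fun q => ext (q.1 ∘ q.2)) with hU'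
    obtain ⟨T, c, M, hc, hM, hcpos, hsm, hanti, hexh, ⟨R0b, hbd⟩, hmain⟩ := hroot n U' hn (by
      intro u hu
      rw [hU', mem_image] at hu
      obtain ⟨q, -, rfl⟩ := hu
      exact ext_supp _)
    set T' : Finset ((Fin n → ℝ) × (ℝ → ℝ)) :=
      (T ×ˢ (univ : Finset (Equiv.Perm (Fin n)))).image
        (fun q => ((fun j : Fin n => q.1.1 (q.2 j)), q.1.2)) with hT'
    have memT' : ∀ (w : ℕ → ℝ) (h : ℝ → ℝ) (π : Equiv.Perm (Fin n)), (w, h) ∈ T →
        ((fun j : Fin n => w (π j)), h) ∈ T' := by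
      intro w h π hw
      rw [hT', mem_image]
      exact ⟨((w, h), π), by simp [hw], rfl⟩
    have ofT' : ∀ p ∈ T', ∃ (w : ℕ → ℝ) (h : ℝ → ℝ) (π : Equiv.Perm (Fin n)), (w, h) ∈ T ∧
        p = ((fun j : Fin n => w (π j)), h) := by
      intro p hp
      rw [hT', mem_image] at hp
      obtain ⟨⟨⟨w, h⟩, π⟩, hq, rfl⟩ := hp
      rw [mem_product] at hq
      exact ⟨w, h, π, hq.1, rfl⟩
    -- value formula
    have val : ∀ (w : ℕ → ℝ) (π : Equiv.Perm (Fin n)) (x : Fin n → ℝ),
        ∑ j : Fin n, w (π j) * x j = pr n w (ext (x ∘ π.symm)) := by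
      intro w π x
      rw [pr_ext]
      exact sum_perm (fun i : Fin n => w i) x π
    refine ⟨T', c, M, hc, hM, hcpos, ?_, ?_, ⟨R0b, ?_⟩, ?_⟩
    · intro p hp
      obtain ⟨w, h, π, hw, rfl⟩ := ofT' p hp
      exact hsm _ hw
    · intro x hx
      -- bounds for x
      have hne : (univ : Finset (Fin n)).Nonempty := ⟨⟨0, hn⟩, mem_univ _⟩
      obtain ⟨jm, -, hjm⟩ := exists_min_image univ x hne
      obtain ⟨jM, -, hjM⟩ := exists_max_image univ x hne
      obtain ⟨R0, hR0⟩ := hexh (x jm) (x jM) (hx jm)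
      refine ⟨R0, fun R hR p hp => ?_⟩
      obtain ⟨w, h, π, hw, rfl⟩ := ofT' p hp
      change ∑ j : Fin n, w (π j) * x j < h R
      rw [val]
      refine hR0 R hR _ (fun i hi => ?_) _ hw
      rw [ext_lt _ hi]
      exact ⟨hjm _ (mem_univ _), hjM _ (mem_univ _)⟩
    · intro R hR x hx
      obtain ⟨κ, hκ⟩ := exists_sort x
      have h1 := hbd R hR (ext (x ∘ κ)) (anti_ext hκ) (by
        rintro ⟨w, h⟩ hw
        have h2 := hx _ (memT' w h κ.symm hw)
        change ∑ j : Fin n, w (κ.symm j) * x j - h R ≤ c R at h2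
        rw [val, Equiv.symm_symm] at h2
        exact h2)
      intro j
      have h3 := h1 (κ.symm j) (κ.symm j).2
      rw [ext_fin] at h3
      simpa using h3
    · intro δ
      obtain ⟨R0, hR0⟩ := hmain δ
      refine ⟨R0, fun R hR x p hp hmax h0 hcR u hu hpu => ?_⟩
      obtain ⟨w, h, π, hw, rfl⟩ := ofT' p hp
      change ∀ q ∈ T', ∑ j : Fin n, q.1 j * x j - q.2 R ≤ ∑ j : Fin n, w (π j) * x j - h R at hmax
      change 0 ≤ ∑ j : Fin n, w (π j) * x j - h R at h0
      change ∑ j : Fin n, w (π j) * x j - h R ≤ c R at hcR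
      change 0 < ∑ j : Fin n, w (π j) * u j at hpu
      set wf : Fin n → ℝ := fun i => w i with hwf
      have hwa : Antitone wf := fun i j hij => hanti _ hw i j hij j.2
      set x1 : Fin n → ℝ := x ∘ π.symm with hx1
      have v1 : ∀ y : Fin n → ℝ, ∑ j : Fin n, w (π j) * y j = ∑ i, wf i * (y ∘ π.symm) i := fun y =>
        sum_perm wf y π
      -- swaps
      have hswap : ∀ i j, 0 ≤ (wf i - wf j) * (x1 i - x1 j) := by
        intro i j
        by_cases hij : i = j
        · rw [hij]; simp
        have h2 := hmax _ (memT' w h (π.trans (Equiv.swap i j)) hw)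
        change ∑ k : Fin n, w (Equiv.swap i j (π k)) * x k - h R ≤ _ at h2
        have e1 : ∑ k : Fin n, w (Equiv.swap i j (π k)) * x k
            = ∑ k, wf (Equiv.swap i j k) * x1 k :=
          sum_perm (fun k : Fin n => w (Equiv.swap i j k)) x π
        rw [e1, v1] at h2
        have h3 : ∑ k, wf (Equiv.swap i j k) * x1 k ≤ ∑ k, wf k * x1 k := by linarith
        have h4 : ∑ k, (wf k - wf (Equiv.swap i j k)) * x1 k
            = (wf i - wf j) * x1 i + (wf j - wf i) * x1 j := by
          rw [← Finset.sum_subset (subset_univ {i, j})]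
          · rw [Finset.sum_pair hij, Equiv.swap_apply_left, Equiv.swap_apply_right]
          · intro k _ hk
            simp only [mem_insert, mem_singleton, not_or] at hk
            rw [Equiv.swap_apply_of_ne_of_ne hk.1 hk.2]
            simp
        have h5 : ∑ k, (wf k - wf (Equiv.swap i j k)) * x1 k
            = ∑ k, wf k * x1 k - ∑ k, wf (Equiv.swap i j k) * x1 k := by
          rw [← Finset.sum_sub_distrib]
          exact Finset.sum_congr rfl fun k _ => by ring
        have h6 : 0 ≤ (wf i - wf j) * x1 i + (wf j - wf i) * x1 j := by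
          rw [← h4, h5]; linarith
        linarith
      -- common sorting
      obtain ⟨κ, hκ⟩ := exists_sort (x1 + wf)
      have hx2 : Antitone (x1 ∘ κ) := by
        intro i j hij
        by_contra hlt
        push Not at hlt
        have h1 := hκ hij
        have h2 := hswap (κ i) (κ j)
        simp only [Function.comp_apply, Pi.add_apply] at h1 hlt
        nlinarith
      have hw2 : Antitone (wf ∘ κ) := by
        intro i j hij
        by_contra hlt
        push Not at hlt
        have h1 := hκ hij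
        have h2 := hswap (κ i) (κ j)
        simp only [Function.comp_apply, Pi.add_apply] at h1 hlt
        nlinarith
      have hwk : wf ∘ κ = wf := comp_eq hwa hw2
      -- invariance of sums
      have inv : ∀ y : Fin n → ℝ, ∑ i, wf i * y (κ i) = ∑ i, wf i * y i := by
        intro y
        have e1 : ∑ i, wf i * y (κ i) = ∑ i, wf (κ i) * y (κ i) :=
          Finset.sum_congr rfl fun i _ => by rw [← congrFun hwk i]; rfl
        rw [e1, Equiv.sum_comp κ (fun i => wf i * y i)]
      set ρ : Equiv.Perm (Fin n) := κ.trans π.symm with hρ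
      have hρx : x ∘ ρ = x1 ∘ κ := rfl
      have hρsymm : ρ.symm = π.trans κ.symm := rfl
      have vp : ∀ y : Fin n → ℝ, pr n w (ext (y ∘ ρ)) = ∑ j : Fin n, w (π j) * y j := by
        intro y
        rw [pr_ext, v1]
        exact inv (y ∘ π.symm)
      have huU' : ext (u ∘ ρ) ∈ U' := by
        rw [hU', mem_image]
        exact ⟨(u, ρ), by simp [hu], rfl⟩
      have key := hR0 R hR (ext (x ∘ ρ)) (by rw [hρx]; exact anti_ext hx2) (w, h) hw (by
        rintro ⟨w', h'⟩ hw'
        change pr n w' (ext (x ∘ ρ)) - h' R ≤ pr n w (ext (x ∘ ρ)) - h R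
        rw [vp]
        have h2 := hmax _ (memT' w' h' ρ.symm hw')
        change ∑ j : Fin n, w' (ρ.symm j) * x j - h' R ≤ _ at h2
        rw [val, Equiv.symm_symm] at h2
        exact h2) (by
          change 0 ≤ pr n w (ext (x ∘ ρ)) - h R
          rw [vp]; exact h0) (by
          change pr n w (ext (x ∘ ρ)) - h R ≤ c R
          rw [vp]; exact hcR) (ext (u ∘ ρ)) huU' (by
          change 0 < pr n w (ext (u ∘ ρ))
          rw [vp]; exact hpu)
      rw [sum_log] at key
      have e2 : ∑ i, (u ∘ ρ) i * Real.log ((x ∘ ρ) i) = ∑ j, u j * Real.log (x j) :=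
        Equiv.sum_comp ρ (fun j => u j * Real.log (x j))
      rw [e2] at key
      exact key

end Pool.Agent.W605.WR
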